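import Mathlib

set_option autoImplicit false

namespace Pool.Agent.H.MP_d4a912_an

open Filter Topology Set ENNReal

abbrev I := ℕ × ℕ
abbrev L := lp (fun _ : I => ℝ) 2
noncomputable abbrev Y := lp (fun _ : I × I => L) ∞

noncomputable def w (g : I) : ℝ := if g = 0 then 0 else (1 / 2) ^ Encodable.encode g
noncomputable def e (a : I) : ℝ := 1 / ((min a.1 a.2 : ℕ) + 2)
def far (a : I × I) : Prop := 0 < min a.1.1 a.1.2 ∧ max a.1.1 a.1.2 < min a.2.1 a.2.2
open Classical in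
noncomputable def D (a : I × I) (u : I → ℝ) : ℝ :=
  if far a then 3 / 4 * (u a.1 ^ 2 + u a.2 ^ 2) + 1 / 4 * u 0 ^ 2
  else (1 - e a.1) * u a.1 ^ 2 + e a.1 * u 0 ^ 2
noncomputable def c (a : I × I) (g : I) : ℝ := w g + D a (Pi.single g 1)
noncomputable def W (u : I → ℝ) : ℝ := ∑' g, w g * u g ^ 2

lemma w0 (g : I) : 0 ≤ w g := by
  unfold w
  split_ifs <;> positivity

lemma w1 (g : I) : w g ≤ (1 / 2) ^ Encodable.encode g := by
  unfold w
  split_ifs
  · positivity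
  · rfl

lemma ws : Summable w := summable_geometric_two_encode.of_nonneg_of_le w0 w1

lemma e0 (a : I) : 0 < e a := by
  unfold e
  positivity

lemma e1 (a : I) : e a ≤ 1 / 2 := one_div_le_one_div_of_le two_pos (by simp)

lemma D0 (a : I × I) (u : I → ℝ) : 0 ≤ D a u := by
  have := e0 a.1
  have : 0 ≤ 1 - e a.1 := by linarith [e1 a.1]
  unfold D
  split_ifs <;> positivity

lemma D_le (a : I × I) {u : I → ℝ} {M : ℝ} (h : ∀ g, u g ^ 2 ≤ M) : D a u ≤ 2 * M := by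
  have h1 := h a.1
  have h2 := h a.2
  have h3 := h 0
  have := sq_nonneg (u 0)
  unfold D
  split_ifs
  · linarith
  · nlinarith [e0 a.1, e1 a.1]

lemma D_diag (a : I) (u : I → ℝ) : D (a, a) u = (1 - e a) * u a ^ 2 + e a * u 0 ^ 2 :=
  if_neg fun h => h.2.not_ge min_le_max

lemma c0 (a : I × I) (g : I) : 0 ≤ c a g := add_nonneg (w0 g) (D0 _ _)

lemma hs (x : I) (u : I → ℝ) :
    HasSum (fun g => (Pi.single g 1 : I → ℝ) x ^ 2 * u g ^ 2) (u x ^ 2) :=
  (hasSum_ite_eq x (u x ^ 2)).congr_fun fun g => by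
    by_cases h : g = x
    · simp [h]
    · simp [h]

lemma hD (a : I × I) (u : I → ℝ) : HasSum (fun g => D a (Pi.single g 1) * u g ^ 2) (D a u) := by
  unfold D
  split_ifs
  · exact ((((hs a.1 u).add (hs a.2 u)).mul_left _).add ((hs 0 u).mul_left _)).congr_fun
      fun g => by ring
  · exact (((hs a.1 u).mul_left _).add ((hs 0 u).mul_left _)).congr_fun fun g => by ring

lemma sW {u : I → ℝ} {M : ℝ} (h : ∀ g, u g ^ 2 ≤ M) : Summable fun g => w g * u g ^ 2 :=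
  (ws.mul_right M).of_nonneg_of_le (fun g => mul_nonneg (w0 g) (sq_nonneg _))
    fun g => mul_le_mul_of_nonneg_left (h g) (w0 g)

lemma sW' (u : I →₀ ℝ) : Summable fun g => w g * u g ^ 2 :=
  summable_of_ne_finset_zero (s := u.support) fun g hg => by
    rw [Finsupp.notMem_support_iff.1 hg]
    simp

lemma W0 (u : I → ℝ) : 0 ≤ W u := tsum_nonneg fun g => mul_nonneg (w0 g) (sq_nonneg _)

lemma W_le {u : I → ℝ} {M : ℝ} (h : ∀ g, u g ^ 2 ≤ M) : W u ≤ (∑' g, w g) * M := by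
  rw [← tsum_mul_right]
  exact (sW h).tsum_le_tsum (fun g => mul_le_mul_of_nonneg_left (h g) (w0 g)) (ws.mul_right M)

noncomputable def E (g : I) : Y := ⟨fun a => lp.single 2 g √(c a g), memℓp_infty ⟨√3, by
  rintro _ ⟨a, rfl⟩
  simp only [lp.norm_single (show (0 : ℝ≥0∞) < 2 by norm_num), Real.norm_eq_abs,
    abs_of_nonneg (Real.sqrt_nonneg _)]
  refine Real.sqrt_le_sqrt ?_
  have h1 := D_le a (u := Pi.single g 1) (M := 1) fun x => by
    by_cases h : x = g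
    · simp [h]
    · simp [Pi.single_eq_of_ne h]
  have h2 := (w1 g).trans (pow_le_one₀ (by norm_num) (by norm_num))
  unfold c
  linarith⟩⟩

noncomputable def T : (I →₀ ℝ) →ₗ[ℝ] Y := Finsupp.linearCombination ℝ E

lemma T_apply (u : I →₀ ℝ) (a : I × I) (g : I) : T u a g = u g * √(c a g) := by
  induction u using Finsupp.induction_linear with
  | zero => simp
  | add f h hf hh =>
    rw [map_add, lp.coeFn_add, Pi.add_apply, lp.coeFn_add, Pi.add_apply, hf, hh,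
      Finsupp.add_apply, add_mul]
  | single x t =>
    rw [T, Finsupp.linearCombination_single, lp.coeFn_smul, Pi.smul_apply, lp.coeFn_smul,
      Pi.smul_apply]
    change t * lp.single (E := fun _ : I => ℝ) 2 x √(c a x) g = _
    by_cases h : g = x
    · simp [h]
    · simp [h]

lemma Q (u : I →₀ ℝ) (a : I × I) : ‖T u a‖ ^ 2 = W u + D a u := by
  have := lp.hasSum_norm (p := 2) (by norm_num) (T u a)
  simp only [ENNReal.toReal_ofNat, Real.rpow_ofNat] at this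
  refine this.unique (((sW' u).hasSum.add (hD a u)).congr_fun fun g => ?_)
  rw [T_apply, Real.norm_eq_abs, sq_abs, mul_pow, Real.sq_sqrt (c0 a g), c]
  ring

lemma Q_le (u : I →₀ ℝ) (a : I × I) : W u + D a u ≤ ‖T u‖ ^ 2 :=
  (Q u a).symm.trans_le (pow_le_pow_left₀ (norm_nonneg _)
    (lp.norm_apply_le_norm top_ne_zero (T u) a) 2)

lemma T_le (u : I →₀ ℝ) {B : ℝ} (h : ∀ a, W u + D a u ≤ B) : ‖T u‖ ≤ √B :=
  lp.norm_le_of_forall_le (Real.sqrt_nonneg _) fun a =>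
    Real.le_sqrt_of_sq_le ((Q u a).trans_le (h a))

lemma near (u v : I →₀ ℝ) {η : ℝ} (hη : 0 < η) : ∃ a,
    W ⇑(u - v) + D a ⇑(u - v) ≤ 2 * ‖T u‖ ^ 2 + 2 * ‖T v‖ ^ 2 - ‖T u + T v‖ ^ 2 + η ∧
    ‖T u‖ ^ 2 - W u - (2 * ‖T u‖ ^ 2 + 2 * ‖T v‖ ^ 2 - ‖T u + T v‖ ^ 2 + η) ≤ D a u ∧
    ‖T v‖ ^ 2 - W v - (2 * ‖T u‖ ^ 2 + 2 * ‖T v‖ ^ 2 - ‖T u + T v‖ ^ 2 + η) ≤ D a v := by
  obtain ⟨a, ha⟩ : ∃ a, ‖T (u + v)‖ ^ 2 - η < W ⇑(u + v) + D a ⇑(u + v) := by
    by_contra hc
    push Not at hc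
    have h1 := pow_le_pow_left₀ (norm_nonneg _) (T_le _ hc) 2
    rw [Real.sq_sqrt ((add_nonneg (W0 _) (D0 _ _)).trans (hc 0))] at h1
    linarith
  have p := parallelogram_law_with_norm ℝ (T u a) (T v a)
  have e1 : T u a + T v a = T (u + v) a := by rw [map_add, lp.coeFn_add, Pi.add_apply]
  have e2 : T u a - T v a = T (u - v) a := by rw [map_sub, lp.coeFn_sub, Pi.sub_apply]
  rw [e1, e2, Q, Q, Q, Q] at p
  rw [map_add] at ha
  have h1 := Q_le u a
  have h2 := Q_le v a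
  have h3 := add_nonneg (W0 ⇑(u - v)) (D0 a ⇑(u - v))
  exact ⟨a, by linarith, by linarith, by linarith⟩

lemma co_le (u : I →₀ ℝ) (g : I) : u g ^ 2 ≤ 2 * (‖T u‖ ^ 2 - W u) := by
  have h := Q_le u (g, g)
  rw [D_diag] at h
  nlinarith [mul_nonneg (e0 g).le (sq_nonneg (u 0)), e1 g, sq_nonneg (u g)]

lemma core (u : ℕ → I →₀ ℝ) (h1 : Tendsto (fun n => ‖T (u n)‖) atTop (𝓝 1))
    (h2 : Tendsto (fun p : ℕ × ℕ => ‖T (u p.1) + T (u p.2)‖) atTop (𝓝 2)) :
    (∃ M, ∀ n g, u n g ^ 2 ≤ M) ∧ ∀ g, CauchySeq fun n => u n g := by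
  set δ := fun p : ℕ × ℕ => 2 * ‖T (u p.1)‖ ^ 2 + 2 * ‖T (u p.2)‖ ^ 2 -
    ‖T (u p.1) + T (u p.2)‖ ^ 2 + 1 / ((p.1 : ℝ) + 1) with hδ
  have t1 : Tendsto (Prod.fst : ℕ × ℕ → ℕ) atTop atTop := by
    rw [← prod_atTop_atTop_eq]
    exact tendsto_fst
  have t2 : Tendsto (Prod.snd : ℕ × ℕ → ℕ) atTop atTop := by
    rw [← prod_atTop_atTop_eq]
    exact tendsto_snd
  have d0 : Tendsto δ atTop (𝓝 0) := by
    have := (((((h1.comp t1).pow 2).const_mul 2).add (((h1.comp t2).pow 2).const_mul 2)).sub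
      (h2.pow 2)).add (tendsto_one_div_add_atTop_nhds_zero_nat.comp t1)
    norm_num at this
    simpa only [hδ, one_div] using this
  have nr := fun p : ℕ × ℕ => near (u p.1) (u p.2) (η := 1 / ((p.1 : ℝ) + 1)) (by positivity)
  obtain ⟨B, hB⟩ := (h1.pow 2).bddAbove_range
  have b1 : ∀ n g, u n g ^ 2 ≤ 2 * B := fun n g => by
    linarith [co_le (u n) g, W0 (u n), hB ⟨n, rfl⟩]
  have B0 : 0 ≤ B := by linarith [b1 0 0, sq_nonneg (u 0 0)]
  refine ⟨⟨_, b1⟩, fun g => ?_⟩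
  by_cases hg : g ≠ 0
  · have wg : 0 < w g := by
      rw [w, if_neg hg]
      positivity
    have := (d0.div_const (w g)).sqrt
    rw [zero_div, Real.sqrt_zero] at this
    refine cauchySeq_iff_tendsto_dist_atTop_0.2 (squeeze_zero (fun _ => dist_nonneg)
      (fun p => Real.abs_le_sqrt ?_) this)
    obtain ⟨a, ha, -⟩ := nr p
    have := (sW' (u p.1 - u p.2)).le_tsum g fun g _ => mul_nonneg (w0 g) (sq_nonneg _)
    rw [le_div_iff₀ wg, mul_comm]
    exact this.trans (le_trans (le_add_of_nonneg_right (D0 _ _)) ha)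
  obtain rfl : g = 0 := not_not.1 hg
  obtain ⟨l, -, hl⟩ := (isCompact_Icc (a := -√(2 * B)) (b := √(2 * B))).ultrafilter_le_nhds
    ((hyperfilter ℕ).map fun n => u n 0) (by
      rw [le_principal_iff, Ultrafilter.coe_map, mem_map]
      exact univ_mem' fun n => abs_le.1 (Real.abs_le_sqrt (b1 n 0)))
  have hl' : Tendsto (fun n => u n 0) (hyperfilter ℕ) (𝓝 l) := hl
  have hU := Nat.hyperfilter_le_atTop
  refine Tendsto.cauchySeq (x := l) (by_contra fun hc => ?_)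
  rw [Metric.tendsto_nhds] at hc
  push Not at hc
  obtain ⟨κ, k0, hk⟩ := hc
  have K0 : 0 ≤ ∑' g, w g := tsum_nonneg w0
  set σ := 1 / (2 * (1 + 2 * ∑' g, w g)) with hσ
  have s0 : 0 < σ := by positivity
  have s1 : ∀ᶠ n in atTop, σ ≤ ‖T (u n)‖ ^ 2 - W (u n) := by
    filter_upwards [(h1.pow 2).eventually (lt_mem_nhds (show (1 / 2 : ℝ) < 1 ^ 2 by norm_num))]
      with n hn
    rw [hσ, div_le_iff₀ (by positivity)]
    linarith [W_le (co_le (u n))]
  have key : ∀ η > 0, η < σ → ∃ α, e α ≤ η ∧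
      ∀ᶠ j in hyperfilter ℕ, ‖T (u j)‖ ^ 2 - W (u j) - η ≤ u j α ^ 2 := fun η η0 η1 => by
    obtain ⟨t, t0, t3, t4, t5⟩ : ∃ t > 0, t ≤ 1 / 4 ∧ t ≤ η ∧ t * (κ / 2) ^ 2 + t * (2 * B) ≤ η := by
      have p : 0 < 1 + (κ / 2) ^ 2 + 2 * B := by positivity
      have q := (le_div_iff₀ p).1 (min_le_right (1 / 4) (η / (1 + (κ / 2) ^ 2 + 2 * B)))
      have r : 0 < min (1 / 4) (η / (1 + (κ / 2) ^ 2 + 2 * B)) := by positivity
      exact ⟨_, r, min_le_left _ _, by nlinarith [mul_nonneg r.le B0, sq_nonneg (κ / 2)],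
        by linarith⟩
    obtain ⟨N, hN⟩ := eventually_atTop.1
      (d0.eventually (gt_mem_nhds (show 0 < t * (κ / 2) ^ 2 by positivity)))
    obtain ⟨i, i1, i2, i3⟩ := (hk.and_eventually (s1.and (eventually_ge_atTop N.1))).exists
    have : ∀ᶠ j in hyperfilter ℕ, ∃ α ∈ ((u i).support : Set I), e α ≤ η ∧
        ‖T (u j)‖ ^ 2 - W (u j) - η ≤ u j α ^ 2 := by
      filter_upwards [hU (eventually_ge_atTop N.2),
        Metric.tendsto_nhds.1 hl' (κ / 2) (half_pos k0)] with j j1 j2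
      obtain ⟨a, a1, a2, a3⟩ := nr (i, j)
      have a4 := hN (i, j) ⟨i3, j1⟩
      have a5 : (κ / 2) ^ 2 ≤ (u i - u j) 0 ^ 2 := by
        rw [← sq_abs ((u i - u j) 0)]
        refine pow_le_pow_left₀ (half_pos k0).le ?_ 2
        have := dist_triangle (u i 0) (u j 0) l
        rw [Real.dist_eq (u i 0) (u j 0)] at this
        rw [Finsupp.sub_apply]
        linarith
      have a6 : D a ⇑(u i - u j) < t * (κ / 2) ^ 2 := by
        linarith [W0 ⇑(u i - u j)]
      have k2 : 0 < (κ / 2) ^ 2 := by positivity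
      by_cases hf : far a
      · rw [D, if_pos hf] at a6
        nlinarith [sq_nonneg ((u i - u j) a.1), sq_nonneg ((u i - u j) a.2)]
      rw [D, if_neg hf] at a2 a3 a6
      have a7 : e a.1 ≤ t := le_of_mul_le_mul_right (by
        nlinarith [mul_nonneg (show 0 ≤ 1 - e a.1 by linarith [e1 a.1])
          (sq_nonneg ((u i - u j) a.1)), mul_le_mul_of_nonneg_left a5 (e0 a.1).le]) k2
      have a8 : ∀ n, (1 - e a.1) * u n a.1 ^ 2 + e a.1 * u n 0 ^ 2 ≤ u n a.1 ^ 2 + t * (2 * B) :=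
        fun n => by
        nlinarith [mul_le_mul a7 (b1 n 0) (sq_nonneg _) t0.le,
          mul_nonneg (e0 a.1).le (sq_nonneg (u n a.1))]
      refine ⟨a.1, Finsupp.mem_support_iff.2 fun h => ?_, a7.trans t4, by linarith [a8 j]⟩
      have := a8 i
      rw [h] at this a2
      linarith
    obtain ⟨α, -, h⟩ := (Ultrafilter.eventually_exists_mem_iff (Finset.finite_toSet _)).1 this
    exact ⟨α, h.exists.choose_spec.1, h.mono fun j hj => hj.2⟩
  have m1 := min_le_left (σ / 4) (1 / 3)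
  obtain ⟨α, a1, a2⟩ := key (min (σ / 4) (1 / 3)) (by positivity) (by linarith)
  have m2 := min_le_left (σ / 4) (1 / ((max α.1 α.2 : ℕ) + 3))
  obtain ⟨β, b1, b2⟩ := key (min (σ / 4) (1 / ((max α.1 α.2 : ℕ) + 3))) (by positivity)
    (by linarith)
  have hf : far (α, β) := by
    have p1 := le_of_one_div_le_one_div (by positivity) (a1.trans (min_le_right _ _))
    have p2 := le_of_one_div_le_one_div (by positivity) (b1.trans (min_le_right _ _))
    norm_cast at p1 p2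
    simp only [far]
    omega
  obtain ⟨j, j1, j2, j3⟩ := (a2.and (b2.and (hU s1))).exists
  have := Q_le (u j) (α, β)
  rw [D, if_pos hf] at this
  nlinarith [sq_nonneg (u j 0)]

noncomputable abbrev X' := (LinearMap.range T).topologicalClosure

def X : Type := X'

noncomputable instance : NormedAddCommGroup X := inferInstanceAs (NormedAddCommGroup X')
noncomputable instance : NormedSpace ℝ X := inferInstanceAs (NormedSpace ℝ X')
instance : CompleteSpace X := inferInstanceAs (CompleteSpace X')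

noncomputable def J : (I →₀ ℝ) →ₗ[ℝ] X :=
  T.codRestrict X' fun u => Submodule.le_topologicalClosure _ ⟨u, rfl⟩

lemma J_norm (u : I →₀ ℝ) : ‖J u‖ = ‖T u‖ := rfl

lemma J_le (u : I →₀ ℝ) {M : ℝ} (h : ∀ g, u g ^ 2 ≤ M) : ‖J u‖ ≤ √((∑' g, w g) * M + 2 * M) :=
  T_le u fun a => add_le_add (W_le h) (D_le a h)

noncomputable def ind (χ : I → ℝ) (s : Finset I) : I →₀ ℝ := ∑ g ∈ s, Finsupp.single g (χ g)

lemma ind_sq (χ : I → ℝ) (s : Finset I) (g : I) : ind χ s g ^ 2 ≤ χ g ^ 2 := by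
  simp only [ind, Finsupp.finsetSum_apply, Finsupp.single_apply, Finset.sum_ite_eq']
  split_ifs
  · rfl
  · simpa using sq_nonneg _

lemma f_ind (f : X →L[ℝ] ℝ) (χ : I → ℝ) (s : Finset I) :
    f (J (ind χ s)) = ∑ g ∈ s, χ g * f (J (Finsupp.single g 1)) := by
  rw [ind, map_sum, map_sum]
  refine Finset.sum_congr rfl fun g _ => ?_
  rw [← smul_eq_mul, ← map_smul, ← map_smul, Finsupp.smul_single_one]

lemma f_sum (f : X →L[ℝ] ℝ) : Summable fun g => |f (J (Finsupp.single g 1))| := by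
  refine summable_of_sum_le (c := ‖f‖ * √((∑' g, w g) * 1 + 2 * 1)) (fun _ => abs_nonneg _)
    fun s => ?_
  have h := f_ind f (fun g => SignType.sign (f (J (Finsupp.single g 1)))) s
  simp only [sign_mul_self] at h
  rw [← h]
  refine (le_abs_self _).trans ((f.le_opNorm _).trans (mul_le_mul_of_nonneg_left
    (J_le _ fun g => (ind_sq _ _ g).trans ?_) (norm_nonneg _)))
  generalize SignType.sign (f (J (Finsupp.single g 1))) = t
  cases t <;> simp

lemma f_sum' (f : X →L[ℝ] ℝ) {χ : I → ℝ} {M : ℝ} (h : ∀ g, χ g ^ 2 ≤ M) (g : I) :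
    ‖χ g * f (J (Finsupp.single g 1))‖ ≤ √M * |f (J (Finsupp.single g 1))| := by
  rw [norm_mul]
  exact mul_le_mul_of_nonneg_right (Real.abs_le_sqrt (h g)) (abs_nonneg _)

lemma f_eq (f : X →L[ℝ] ℝ) (u : I →₀ ℝ) : f (J u) = ∑' g, u g * f (J (Finsupp.single g 1)) := by
  rw [tsum_eq_sum (s := u.support) fun g hg => by rw [Finsupp.notMem_support_iff.1 hg, zero_mul],
    ← f_ind]
  exact congrArg (fun v => f (J v)) (Finsupp.sum_single u).symm

lemma nr {ι G : Type} [NormedAddCommGroup G] {l : Filter ι} {a b : ι → G} {r : ℝ}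
    (h : Tendsto (fun n => a n - b n) l (𝓝 0)) (h' : Tendsto (fun n => ‖b n‖) l (𝓝 r)) :
    Tendsto (fun n => ‖a n‖) l (𝓝 r) := by
  have := (squeeze_zero_norm (fun n => abs_norm_sub_norm_le (a n) (b n))
    (tendsto_zero_iff_norm_tendsto_zero.1 h)).add h'
  simpa using this

lemma dense (x : X) {ε : ℝ} (hε : 0 < ε) : ∃ u, ‖J u - x‖ < ε := by
  obtain ⟨_, ⟨u, rfl⟩, hu⟩ := Metric.mem_closure_iff.1 x.2 ε hε
  rw [dist_comm, dist_eq_norm] at hu
  exact ⟨u, hu⟩

lemma wcr (x : ℕ → X) (h1 : ∀ n, ‖x n‖ = 1)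
    (h2 : Tendsto (fun p : ℕ × ℕ => ‖x p.1 + x p.2‖) atTop (𝓝 2)) (f : X →L[ℝ] ℝ) :
    CauchySeq fun n => f (x n) := by
  choose u hu using fun n : ℕ => dense (x n) (ε := 1 / ((n : ℝ) + 1)) (by positivity)
  have t0 : Tendsto (fun n => J (u n) - x n) atTop (𝓝 0) :=
    squeeze_zero_norm (fun n => (hu n).le) tendsto_one_div_add_atTop_nhds_zero_nat
  have t1 : Tendsto (Prod.fst : ℕ × ℕ → ℕ) atTop atTop := by
    rw [← prod_atTop_atTop_eq]
    exact tendsto_fst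
  have t2 : Tendsto (Prod.snd : ℕ × ℕ → ℕ) atTop atTop := by
    rw [← prod_atTop_atTop_eq]
    exact tendsto_snd
  obtain ⟨⟨M, hM⟩, hc⟩ := core u (by
    simpa only [← J_norm] using nr t0 (r := 1) (by simp [h1])) (by
    simp only [← map_add, ← J_norm]
    simp only [map_add]
    exact nr (by simpa only [add_zero, add_sub_add_comm, Function.comp_def] using
      (t0.comp t1).add (t0.comp t2)) h2)
  choose l hl using fun g => cauchySeq_tendsto_of_complete (hc g)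
  have t := tendsto_tsum_of_dominated_convergence ((f_sum f).mul_left √M)
    (fun g => (hl g).mul_const (f (J (Finsupp.single g 1)))) (.of_forall fun n => f_sum' f (hM n))
  simp only [← f_eq] at t
  exact ((t.sub ((f.continuous.tendsto 0).comp t0)).congr fun n => by simp).cauchySeq

lemma F_has (f : X →L[ℝ] ℝ) {χ : I → ℝ} (h : ∀ g, χ g ^ 2 ≤ 1) :
    Summable fun g => χ g * f (J (Finsupp.single g 1)) :=
  ((f_sum f).mul_left _).of_norm_bounded (f_sum' f h)

lemma D_mono (a : I × I) {u v : I → ℝ} (h : ∀ g, u g ^ 2 ≤ v g ^ 2) : D a u ≤ D a v := by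
  have := e0 a.1
  have : 0 ≤ 1 - e a.1 := by linarith [e1 a.1]
  have := h a.1
  have := h a.2
  have := h 0
  unfold D
  split_ifs <;> gcongr

lemma F_le (f : X →L[ℝ] ℝ) {χ : I → ℝ} (h : ∀ g, χ g ^ 2 ≤ 1) (h' : ∀ a, D a χ ≤ 1) :
    ‖∑' g, χ g * f (J (Finsupp.single g 1))‖ ≤ √(W χ + 1) * ‖f‖ := by
  refine le_of_tendsto' (Tendsto.norm (F_has f h).hasSum) fun s => ?_
  rw [← f_ind, mul_comm]
  refine (f.le_opNorm _).trans (mul_le_mul_of_nonneg_left (T_le _ fun a => add_le_add ?_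
    ((D_mono a (ind_sq χ s)).trans (h' a))) (norm_nonneg _))
  exact (sW' _).tsum_le_tsum (fun g => mul_le_mul_of_nonneg_left (ind_sq χ s g) (w0 g)) (sW h)

def χ (n : ℕ) (g : I) : ℝ := if g.1 = n + 1 ∨ g.2 = n + 1 ∨ (g = 0 ∧ Even n) then 1 else 0

lemma χ1 (n : ℕ) (g : I) : χ n g ^ 2 ≤ 1 := by
  unfold χ
  split_ifs <;> simp

lemma χD (n : ℕ) (a : I × I) : D a (χ n) ≤ 1 := by
  have h1 := χ1 n a.1
  have h2 := χ1 n a.2
  have h3 := χ1 n 0
  unfold D
  split_ifs with h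
  · have : χ n a.1 = 0 ∨ χ n a.2 = 0 := by
      simp only [χ, ite_eq_right_iff, one_ne_zero, imp_false, Prod.ext_iff, Prod.fst_zero,
        Prod.snd_zero]
      unfold far at h
      omega
    rcases this with h | h <;> rw [h] <;> linarith
  · nlinarith [e0 a.1, e1 a.1]

noncomputable def F (n : ℕ) : (X →L[ℝ] ℝ) →L[ℝ] ℝ :=
  LinearMap.mkContinuous ⟨⟨fun f => ∑' g, χ n g * f (J (Finsupp.single g 1)), fun f k => by
    simp only [_root_.add_apply, mul_add]
    exact (F_has f (χ1 n)).tsum_add (F_has k (χ1 n))⟩, fun t f => by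
    simp only [_root_.smul_apply, smul_eq_mul, RingHom.id_apply, mul_left_comm _ t,
      tsum_mul_left]⟩ √(W (χ n) + 1) fun f => F_le f (χ1 n) (χD n)

lemma F_norm (n : ℕ) : ‖F n‖ ≤ √(W (χ n) + 1) :=
  LinearMap.mkContinuous_norm_le _ (Real.sqrt_nonneg _) _

noncomputable def ρ (α : I) : X →L[ℝ] ℝ :=
  LinearMap.mkContinuous ⟨⟨fun x => x.1 (α, α) α, fun _ _ => rfl⟩, fun _ _ => rfl⟩ 1 fun x => by
    rw [one_mul]
    exact (lp.norm_apply_le_norm two_ne_zero _ α).trans (lp.norm_apply_le_norm top_ne_zero _ _)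

lemma F_ρ (n : ℕ) (α : I) : F n (ρ α) = χ n α * √(c (α, α) α) := by
  refine (tsum_eq_single α fun g hg => ?_).trans ?_
  · change _ * T _ _ _ = 0
    rw [T_apply, Finsupp.single_eq_of_ne' hg, zero_mul, mul_zero]
  · change _ * T _ _ _ = _
    rw [T_apply, Finsupp.single_eq_same, one_mul]

lemma c_ge (α : I) : 1 - e α ≤ √(c (α, α) α) := by
  refine Real.le_sqrt_of_sq_le ?_
  rw [c, D_diag, Pi.single_eq_same]
  nlinarith [e0 α, e1 α, w0 α, mul_nonneg (e0 α).le (sq_nonneg ((Pi.single α 1 : I → ℝ) 0))]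

lemma le_F (G : (X →L[ℝ] ℝ) →L[ℝ] ℝ) (α : I) : G (ρ α) ≤ ‖G‖ :=
  (le_abs_self _).trans ((G.le_opNorm _).trans (mul_le_of_le_one_right (norm_nonneg _)
    (LinearMap.mkContinuous_norm_le _ zero_le_one _)))

lemma e_lim : Tendsto (fun p : ℕ × ℕ => e (p.1 + 1, p.2 + 1)) atTop (𝓝 0) := by
  have : Tendsto (fun p : ℕ × ℕ => min (p.1 + 1) (p.2 + 1)) atTop atTop :=
    tendsto_atTop.2 fun b => (eventually_ge_atTop (b, b)).mono fun p hp =>
      le_min (hp.1.trans (Nat.le_succ _)) (hp.2.trans (Nat.le_succ _))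
  exact tendsto_const_nhds.div_atTop
    (tendsto_atTop_add_const_right _ 2 (tendsto_natCast_atTop_atTop.comp this))

lemma F_ge (n : ℕ) : 1 - e (n + 1, n + 1) ≤ ‖F n‖ := by
  refine (c_ge _).trans (le_trans (le_of_eq ?_) (le_F _ (n + 1, n + 1)))
  simp [F_ρ, χ]

lemma F_lim : Tendsto (fun n => ‖F n‖) atTop (𝓝 1) := by
  have t := tendsto_tsum_of_dominated_convergence (𝓕 := atTop) (g := fun _ => (0 : ℝ))
    (f := fun n g => w g * χ n g ^ 2) ws (fun g => by
      refine tendsto_const_nhds.congr' ((eventually_ge_atTop (g.1 + g.2)).mono fun n hn => ?_)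
      by_cases h : g = 0
      · simp [w, h]
      · simp only [χ, h, false_and, or_false]
        rw [if_neg (by omega)]
        simp) (.of_forall fun n g => by
      rw [Real.norm_of_nonneg (mul_nonneg (w0 g) (sq_nonneg _))]
      exact mul_le_of_le_one_right (w0 g) (χ1 n g))
  have t1 := (t.add_const 1).sqrt
  have t2 := (e_lim.comp tendsto_atTop_diagonal).const_sub 1
  simp only [tsum_zero, zero_add, Real.sqrt_one, sub_zero] at t1 t2
  exact tendsto_of_tendsto_of_tendsto_of_le_of_le t2 t1 F_ge F_norm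

end Pool.Agent.H.MP_d4a912_an
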